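import Pool.Agent.H93.EG.Targets

/-!
# Boundedness and measurability of the modes
-/

namespace Pool.Agent.H50.EG

open MeasureTheory Set Metric Filter Topology Pool.Agent.H93.EG
open Pool.Agent.H93.BL hiding T_B1 T_B2 T_B3 T_SB T_SC
open Pool.Agent.H93.EN

lemma AB_md_meas {f : ℂ → ℂ → ℝ} (hf : Measurable (Function.uncurry f)) (k : ℤ) :
    Measurable fun x => md (f x) k := by
  unfold md
  have hpi : (0 : ℝ) ≤ 2 * Real.pi := by positivity
  refine Measurable.const_mul ?_ _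
  simp only [intervalIntegral.integral_of_le hpi]
  have h1 : StronglyMeasurable (Function.uncurry fun (y : ℂ) (θ : ℝ) =>
      (f y (Complex.exp ((θ : ℂ) * Complex.I)) : ℂ) *
        Complex.exp (-((k : ℂ) * (θ : ℂ) * Complex.I))) := by
    refine Measurable.stronglyMeasurable ?_
    have h2 : Measurable fun z : ℂ × ℝ => (z.1, Complex.exp ((z.2 : ℂ) * Complex.I)) := by
      fun_prop
    have h3 : Measurable fun z : ℂ × ℝ => ((Function.uncurry f
        (z.1, Complex.exp ((z.2 : ℂ) * Complex.I)) : ℝ) : ℂ) :=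
      Complex.measurable_ofReal.comp (hf.comp h2)
    have h4 : Measurable fun z : ℂ × ℝ => Complex.exp (-((k : ℂ) * (z.2 : ℂ) * Complex.I)) := by
      fun_prop
    exact h3.mul h4
  exact (h1.integral_prod_right (ν := volume.restrict (Ioc 0 (2 * Real.pi)))).measurable

lemma AB_md_bd {g : ℂ → ℝ} {C : ℝ} (hg : ∀ w, ‖w‖ = 1 → |g w| ≤ C) (k : ℤ) : ‖md g k‖ ≤ C := by
  unfold md
  have hpi : 0 < 2 * Real.pi := by positivity
  have h1 : ‖∫ θ in (0 : ℝ)..(2 * Real.pi), (g (Complex.exp ((θ : ℂ) * Complex.I)) : ℂ) *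
      Complex.exp (-((k : ℂ) * (θ : ℂ) * Complex.I))‖ ≤ C * |2 * Real.pi - 0| := by
    refine intervalIntegral.norm_integral_le_of_norm_le_const fun x _ => ?_
    have e1 : ‖Complex.exp (-((k : ℂ) * (x : ℂ) * Complex.I))‖ = 1 := by
      have : -((k : ℂ) * (x : ℂ) * Complex.I) = ((-(k * x) : ℝ) : ℂ) * Complex.I := by
        push_cast; ring
      rw [this, Complex.norm_exp_ofReal_mul_I]
    rw [norm_mul, e1, mul_one, Complex.norm_real, Real.norm_eq_abs]
    exact hg _ (Complex.norm_exp_ofReal_mul_I x)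
  rw [sub_zero, abs_of_pos hpi] at h1
  rw [norm_mul, Complex.norm_real, Real.norm_eq_abs, abs_of_pos (by positivity)]
  calc (2 * Real.pi)⁻¹ * ‖∫ θ in (0 : ℝ)..(2 * Real.pi),
        (g (Complex.exp ((θ : ℂ) * Complex.I)) : ℂ) *
          Complex.exp (-((k : ℂ) * (θ : ℂ) * Complex.I))‖
      ≤ (2 * Real.pi)⁻¹ * (C * (2 * Real.pi)) := mul_le_mul_of_nonneg_left h1 (by positivity)
    _ = C := by field_simp

lemma AB_av_meas {f : ℂ → ℂ → ℝ} (hf : Measurable (Function.uncurry f)) :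
    Measurable fun x => av (f x) := by
  unfold av
  have hpi : (0 : ℝ) ≤ 2 * Real.pi := by positivity
  refine Measurable.const_mul ?_ _
  simp only [intervalIntegral.integral_of_le hpi]
  have h1 : StronglyMeasurable (Function.uncurry fun (y : ℂ) (θ : ℝ) =>
      f y (Complex.exp ((θ : ℂ) * Complex.I))) := by
    refine Measurable.stronglyMeasurable ?_
    have h2 : Measurable fun z : ℂ × ℝ => (z.1, Complex.exp ((z.2 : ℂ) * Complex.I)) := by
      fun_prop
    exact hf.comp h2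
  exact (h1.integral_prod_right (ν := volume.restrict (Ioc 0 (2 * Real.pi)))).measurable

lemma AB_av_nonneg {g : ℂ → ℝ} (h : ∀ w, 0 ≤ g w) : 0 ≤ av g := by
  unfold av
  refine mul_nonneg (by positivity) ?_
  exact intervalIntegral.integral_nonneg (by positivity) fun _ _ => h _

lemma AB_av_le {g : ℂ → ℝ} {C : ℝ} (h : ∀ w, ‖w‖ = 1 → |g w| ≤ C) : av g ≤ C := by
  unfold av
  have hpi : 0 < 2 * Real.pi := by positivity
  have h1 : ‖∫ θ in (0 : ℝ)..(2 * Real.pi), g (Complex.exp ((θ : ℂ) * Complex.I))‖ ≤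
      C * |2 * Real.pi - 0| := by
    refine intervalIntegral.norm_integral_le_of_norm_le_const fun x _ => ?_
    rw [Real.norm_eq_abs]
    exact h _ (Complex.norm_exp_ofReal_mul_I x)
  rw [sub_zero, abs_of_pos hpi] at h1
  have h2 := (le_abs_self _).trans h1
  calc (2 * Real.pi)⁻¹ * ∫ θ in (0 : ℝ)..(2 * Real.pi), g (Complex.exp ((θ : ℂ) * Complex.I))
      ≤ (2 * Real.pi)⁻¹ * (C * (2 * Real.pi)) := mul_le_mul_of_nonneg_left h2 (by positivity)
    _ = C := by field_simp

theorem ab (_h1 : T_B2) : T_AB := by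
  intro ι P δ G N hδ hS
  obtain ⟨C₀, hC₀⟩ := hS.bN
  have hC0 : 0 ≤ C₀ := (norm_nonneg _).trans (hC₀ 0 0)
  refine ⟨P.isBounded.measure_lt_top, P.isOpen.measurableSet, C₀ + C₀ ^ 2, by positivity, ?_⟩
  intro k
  have hre : Measurable (Function.uncurry fun x w => (N x w).re) :=
    Complex.measurable_re.comp hS.mN
  have him : Measurable (Function.uncurry fun x w => (N x w).im) :=
    Complex.measurable_im.comp hS.mN
  have hprod : Measurable fun z : ℂ × ℂ => Function.uncurry N z * (starRingEnd ℂ) z.2 :=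
    hS.mN.mul (Complex.continuous_conj.measurable.comp measurable_snd)
  have hg : Measurable (Function.uncurry (gN N)) := Complex.measurable_re.comp hprod
  have hh : Measurable (Function.uncurry (hN N)) := Complex.measurable_im.comp hprod
  have bg : ∀ x w, ‖w‖ = 1 → |gN N x w| ≤ C₀ := by
    intro x w hw
    unfold gN
    refine (Complex.abs_re_le_norm _).trans ?_
    rw [norm_mul, Complex.norm_conj, hw, mul_one]
    exact hC₀ x w
  have bh : ∀ x w, ‖w‖ = 1 → |hN N x w| ≤ C₀ := by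
    intro x w hw
    unfold hN
    refine (Complex.abs_im_le_norm _).trans ?_
    rw [norm_mul, Complex.norm_conj, hw, mul_one]
    exact hC₀ x w
  have hle1 : C₀ ≤ C₀ + C₀ ^ 2 := by nlinarith [sq_nonneg C₀]
  have hle2 : C₀ ^ 2 ≤ C₀ + C₀ ^ 2 := by linarith
  have sqb : ∀ t : ℝ, |t| ≤ C₀ → |t ^ 2| ≤ C₀ ^ 2 := by
    intro t ht
    rw [abs_pow]
    exact pow_le_pow_left₀ (abs_nonneg _) ht 2
  refine ⟨⟨AB_md_meas hS.mG k, fun x => ?_⟩, ⟨AB_md_meas hre k, fun x => ?_⟩,
    ⟨AB_md_meas him k, fun x => ?_⟩, ⟨AB_md_meas hg k, fun x => ?_⟩,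
    ⟨AB_md_meas hh k, fun x => ?_⟩, ⟨AB_av_meas (hg.pow_const 2), fun x => ⟨?_, ?_⟩⟩,
    ⟨AB_av_meas (hh.pow_const 2), fun x => ⟨?_, ?_⟩⟩⟩
  · refine AB_md_bd (fun w _ => ?_) k
    rw [abs_of_nonneg (hS.bG x w).1]
    exact (hS.bG x w).2
  · exact (AB_md_bd (fun w _ => (Complex.abs_re_le_norm _).trans (hC₀ x w)) k).trans hle1
  · exact (AB_md_bd (fun w _ => (Complex.abs_im_le_norm _).trans (hC₀ x w)) k).trans hle1
  · exact (AB_md_bd (bg x) k).trans hle1
  · exact (AB_md_bd (bh x) k).trans hle1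
  · exact AB_av_nonneg fun w => sq_nonneg _
  · exact (AB_av_le fun w hw => sqb _ (bg x w hw)).trans hle2
  · exact AB_av_nonneg fun w => sq_nonneg _
  · exact (AB_av_le fun w hw => sqb _ (bh x w hw)).trans hle2

end Pool.Agent.H50.EG
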